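import Pool.Agent.BOG.Stmts

/-!
# Squad BOG, row SUM
-/

set_option autoImplicit false

namespace Pool.Agent.BOG.H37

open Polynomial Finset Pool.Agent.BOG

universe v

theorem sum_range_id (w : ℕ) : ∑ i ∈ range (2 * w), (i : ℤ) = w * (2 * w - 1) := by
  induction w with
  | zero => simp
  | succ w ih =>
    rw [show 2 * (w + 1) = 2 * w + 1 + 1 by ring, sum_range_succ, sum_range_succ, ih]
    push_cast
    ring

theorem double {K : Type v} [Field K] {n : ℕ} (m c : Fin n → K) (S : Finset (K × K))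
    (g : K × K → ℤ) :
    ∑ P : Fin n, ∑ Y ∈ onP m c S P, g Y = ∑ Y ∈ S, (rr m c Y : ℤ) * g Y := by
  classical
  unfold onP rr
  have h1 : ∀ P : Fin n, ∑ Y ∈ S.filter (fun X => On X (m P) (c P)), g Y =
      ∑ Y ∈ S, if On Y (m P) (c P) then g Y else 0 := by
    intro P
    rw [sum_filter]
  have h2 : ∀ Y : K × K, (((univ.filter fun P : Fin n => On Y (m P) (c P)).card : ℕ) : ℤ) * g Y =
      ∑ P : Fin n, if On Y (m P) (c P) then g Y else 0 := by
    intro Y
    rw [← sum_filter, sum_const, nsmul_eq_mul]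
  calc _ = ∑ P : Fin n, ∑ Y ∈ S, (if On Y (m P) (c P) then g Y else 0) := by
        apply sum_congr rfl
        intro P _
        rw [← h1 P]
    _ = ∑ Y ∈ S, ∑ P : Fin n, (if On Y (m P) (c P) then g Y else 0) := sum_comm
    _ = _ := by
        apply sum_congr rfl
        intro Y _
        rw [← h2 Y]

theorem sm : SumStmt.{v} := by
  classical
  intro K _ n m c w d S hS hd
  have h1 : ∀ (P : Fin n) (i : ℕ), i < 2 * w →
      ((d - i - ∑ Y ∈ onP m c S P, (w * rr m c Y - i) : ℕ) : ℤ) =
      d - i - ∑ Y ∈ onP m c S P, ((w : ℤ) * rr m c Y - i) := by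
    intro P i hi
    have h2 := hd P i hi
    rw [Nat.cast_sub (by omega), Nat.cast_sub (by omega), Nat.cast_sum]
    congr 1
    apply sum_congr rfl
    intro Y hY
    have hYS : Y ∈ S := (mem_filter.1 hY).1
    have h3 : i ≤ w * rr m c Y := by
      have h4 := Nat.mul_le_mul_left w (hS Y hYS)
      omega
    rw [Nat.cast_sub h3]
    push_cast
    ring
  push_cast [Nat.cast_sum]
  have h5 : ∀ P : Fin n, ∑ i ∈ range (2 * w),
      ((d - i - ∑ Y ∈ onP m c S P, (w * rr m c Y - i) : ℕ) : ℤ) =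
      2 * w * d - w * (2 * w - 1) -
        ∑ Y ∈ onP m c S P, (2 * (w : ℤ) ^ 2 * rr m c Y - w * (2 * w - 1)) := by
    intro P
    have e1 : ∑ Y ∈ onP m c S P, (2 * (w : ℤ) ^ 2 * rr m c Y - w * (2 * w - 1)) =
        ∑ Y ∈ onP m c S P, ∑ i ∈ range (2 * w), ((w : ℤ) * rr m c Y - i) := by
      apply sum_congr rfl
      intro Y _
      rw [sum_sub_distrib, sum_range_id, sum_const, card_range, nsmul_eq_mul]
      push_cast
      ring
    rw [sum_congr rfl (fun i hi => h1 P i (mem_range.1 hi)), e1, sum_comm (s := onP m c S P),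
      sum_sub_distrib, sum_sub_distrib, sum_range_id, sum_const, card_range, nsmul_eq_mul]
    push_cast
    ring
  rw [sum_congr rfl (fun P _ => h5 P), sum_sub_distrib, double, sum_const, card_univ,
    Fintype.card_fin, nsmul_eq_mul]

end Pool.Agent.BOG.H37
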