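import Pool.Agent.BOG.Stmts

/-!
# Squad BOG, row TAY
-/

set_option autoImplicit false

namespace Pool.Agent.BOG.H37

open Polynomial Finset Pool.Agent.BOG

universe v

theorem coeff_taylor {R : Type v} [CommRing R] (F : R[X]) (r : R) (i : ℕ) :
    (taylor r F).coeff i = ∑ a ∈ F.support, ((a.choose i : ℕ) : R) * F.coeff a * r ^ (a - i) := by
  rw [taylor_coeff, hasseDeriv_apply, Polynomial.sum_def, eval_finsetSum]
  apply Finset.sum_congr rfl
  intro a _
  rw [eval_monomial]

theorem tay : TayStmt.{v} := by
  intro K _ m c F
  refine ⟨?_, ?_, ?_⟩
  · intro ν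
    unfold lin2
    rw [X_sub_C_pow_dvd_iff, ← taylor_apply, X_pow_dvd_iff]
  · intro d hF i
    rw [coeff_taylor]
    refine Submodule.sum_mem _ (fun a _ => ?_)
    by_cases hai : a < i
    · rw [Nat.choose_eq_zero_of_lt hai]
      simp
    · push Not at hai
      have hFa : F.coeff a ∈ degreeLT K (d - a) := hF a
      by_cases had : d ≤ a
      · have h0 : F.coeff a = 0 := by
          rw [Nat.sub_eq_zero_of_le had, mem_degreeLT, Nat.cast_zero] at hFa
          by_contra hne
          exact absurd hFa (not_lt.2 (zero_le_degree_iff.2 hne))
        rw [h0]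
        simp
      · push Not at had
        rw [mem_degreeLT] at hFa ⊢
        by_cases hz : F.coeff a = 0
        · rw [hz]
          simp only [mul_zero, zero_mul, degree_zero]
          exact WithBot.bot_lt_coe _
        · have h1 : (F.coeff a).natDegree < d - a := (natDegree_lt_iff_degree_lt hz).2 hFa
          have h2 : (C m * X + C c : K[X]).natDegree ≤ 1 := natDegree_linear_le
          have h3 : ((C m * X + C c : K[X]) ^ (a - i)).natDegree ≤ a - i := by
            refine le_trans natDegree_pow_le ?_
            calc (a - i) * (C m * X + C c : K[X]).natDegree ≤ (a - i) * 1 :=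
                  Nat.mul_le_mul_left _ h2
              _ = a - i := mul_one _
          have h4 : (((a.choose i : ℕ) : K[X]) * F.coeff a * (C m * X + C c) ^ (a - i)).natDegree
              ≤ (F.coeff a).natDegree + (a - i) := by
            refine le_trans natDegree_mul_le ?_
            refine Nat.add_le_add ?_ h3
            refine le_trans natDegree_mul_le ?_
            rw [natDegree_natCast, zero_add]
          refine lt_of_le_of_lt (degree_le_natDegree) ?_
          have h5 : (((a.choose i : ℕ) : K[X]) * F.coeff a * (C m * X + C c) ^ (a - i)).natDegree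
              < d - i := by omega
          exact_mod_cast h5
  · intro J Y hY hV i
    have e : taylor (C m * X + C c) F =
        taylor (C m * (X - C Y.2)) (taylor (C Y.1) F) := by
      rw [taylor_taylor]
      congr 1
      have hY' : Y.1 = m * Y.2 + c := hY
      rw [hY']
      simp only [map_add, map_mul]
      ring_nf
    rw [e, coeff_taylor]
    refine Finset.dvd_sum (fun a _ => ?_)
    by_cases hai : a < i
    · rw [Nat.choose_eq_zero_of_lt hai]
      simp
    · push Not at hai
      rw [mul_pow]
      by_cases haJ : a < J
      · have h1 := hV a haJ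
        have h2 : (X - C Y.2 : K[X]) ^ (J - i) = (X - C Y.2) ^ (J - a) * (X - C Y.2) ^ (a - i) := by
          rw [← pow_add]
          congr 1
          omega
        rw [h2]
        refine mul_dvd_mul (Dvd.dvd.mul_left h1 _) (Dvd.intro_left _ rfl)
      · push Not at haJ
        refine Dvd.dvd.mul_left (Dvd.dvd.mul_left ?_ _) _
        exact pow_dvd_pow _ (by omega)

end Pool.Agent.BOG.H37
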